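import Pool.Agent.Helper43.AX.St

/-!
# Module QT of project AX: `H / Z(H)` is finite
-/

set_option autoImplicit false

namespace Pool.Agent.Helper40.AX

open Pool.Agent.Helper43.AX

/-- an additive family which is trivial on an ideal descends to the quotient -/
theorem descend {L A : Type} [CommRing L] [Group A] (I : Ideal L) (f : L → A)
    (hadd : ∀ c d, f (c + d) = f c * f d) (hI : ∀ c ∈ I, f c = 1) :
    ∃ f' : L ⧸ I → A, (∀ c, f' (Ideal.Quotient.mk I c) = f c) ∧
      ∀ y z, f' (y + z) = f' y * f' z := by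
  have key : ∀ c d, Ideal.Quotient.mk I c = Ideal.Quotient.mk I d → f c = f d := by
    intro c d h
    rw [Ideal.Quotient.eq] at h
    have h1 := hadd (c - d) d
    rw [hI _ h, one_mul, sub_add_cancel] at h1
    exact h1
  have hs : Function.Surjective (Ideal.Quotient.mk I) := Ideal.Quotient.mk_surjective
  have h1 : ∀ c, f (Function.surjInv hs (Ideal.Quotient.mk I c)) = f c :=
    fun c => key _ _ (Function.surjInv_eq hs _)
  refine ⟨fun y => f (Function.surjInv hs y), h1, ?_⟩
  intro y z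
  obtain ⟨c, rfl⟩ := hs y
  obtain ⟨d, rfl⟩ := hs z
  rw [← map_add]
  simp only [h1]
  exact hadd c d

theorem hQT (hVC : StVC) (hCE : StCE) (hHN : StHN) : StQT := by
  intro p q G _ a b t l L _ x E σ hC hcl I hI hpI hxI hF
  obtain ⟨hN, haH, hbH, -⟩ := hHN p q G a b t l L x E σ hC hcl
  obtain ⟨v1, v2, -, -, -⟩ := hVC p q G a b t l L x E σ hC
  have hce := hCE p q G a b t l L x E σ hC
  have hR := hC.rel
  have hD := hC.rd
  obtain ⟨H, hH⟩ : ∃ H : Subgroup G, H = Hs a b E := ⟨_, rfl⟩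
  rw [← hH] at hN haH hbH ⊢
  obtain ⟨Z, hZ⟩ : ∃ Z : Subgroup G, Z = (Subgroup.center H).map H.subtype := ⟨_, rfl⟩
  have hZn : Z.Normal := by
    rw [hZ]
    infer_instance
  have hEm : ∀ c, E c ∈ H := by
    intro c
    rw [hH]
    exact Subgroup.subset_closure (Or.inl ⟨c, rfl⟩)
  -- `E c ∈ Z` for `c ∈ I`
  have hEZ : ∀ c ∈ I, E c ∈ Z := by
    intro c hc
    have hle : H ≤ Subgroup.centralizer {E c} := by
      rw [hH]
      refine (Subgroup.closure_le _).2 ?_
      rintro g (⟨d, rfl⟩ | ⟨d, rfl⟩)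
      · rw [SetLike.mem_coe, Subgroup.mem_centralizer_iff]
        rintro y (hy : y = E c)
        rw [hy, ← hD.add, ← hD.add, add_comm]
      · rw [SetLike.mem_coe, Subgroup.mem_centralizer_iff]
        rintro y (hy : y = E c)
        rw [hy]
        exact hce c ((hI c).1 hc) d
    rw [hZ]
    refine ⟨⟨E c, hEm c⟩, ?_, rfl⟩
    rw [SetLike.mem_coe, Subgroup.mem_center_iff]
    intro g
    apply Subtype.ext
    have h1 := hle g.2
    rw [Subgroup.mem_centralizer_iff] at h1
    exact (h1 (E c) rfl).symm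
  have hFZ : ∀ c ∈ I, F1 a b E c ∈ Z := by
    intro c hc
    exact hZn.conj_mem _ (hEZ c hc) (a * b * a)
  have hFadd : ∀ c d, F1 a b E (c + d) = F1 a b E c * F1 a b E d := by
    intro c d
    unfold F1
    rw [hD.add]
    group
  obtain ⟨π, hπ⟩ : ∃ π : G →* G ⧸ Z, π = QuotientGroup.mk' Z := ⟨_, rfl⟩
  have hπ1 : ∀ g, π g = 1 ↔ g ∈ Z := by
    intro g
    rw [hπ]
    exact QuotientGroup.eq_one_iff g
  obtain ⟨E', hE', hE'add⟩ := descend I (fun c => π (E c))
    (fun c d => by simp only [hD.add, map_mul]) (fun c hc => (hπ1 _).2 (hEZ c hc))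
  obtain ⟨F', hF', hF'add⟩ := descend I (fun c => π (F1 a b E (-c)))
    (fun c d => by simp only [neg_add, hFadd, map_mul])
    (fun c hc => (hπ1 _).2 (hFZ _ (I.neg_mem hc)))
  obtain ⟨s, hs⟩ : ∃ s : Pool.Agent.Helper43.GD.Sys (L ⧸ I) (G ⧸ Z),
      s = ⟨E', F', hE'add, hF'add⟩ := ⟨_, rfl⟩
  have hsE : ∀ c, s.E (Ideal.Quotient.mk I c) = π (E c) := by
    intro c
    rw [hs]
    exact hE' c
  have hsF : ∀ c, s.F (Ideal.Quotient.mk I c) = π (F1 a b E (-c)) := by
    intro c
    rw [hs]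
    exact hF' c
  have hsurj : ∀ y : L ⧸ I, ∃ c, Ideal.Quotient.mk I c = y := Ideal.Quotient.mk_surjective
  -- `b = v a v⁻¹`
  have hb : F1 a b E 1 = b := by
    unfold F1
    rw [hD.one, mul_inv_eq_iff_eq_mul]
    calc a * b * a * a = (b * a * b) * a := by rw [hR.braid]
      _ = b * (a * b * a) := by group
  have hom : s.om 1 = π (a * b * a) := by
    unfold Pool.Agent.Helper43.GD.Sys.om
    have e1 : (((1 : (L ⧸ I)ˣ)) : L ⧸ I) = Ideal.Quotient.mk I 1 := by simp
    have e2 : (-(((1 : (L ⧸ I)ˣ)⁻¹ : (L ⧸ I)ˣ) : L ⧸ I)) = Ideal.Quotient.mk I (-1) := by simp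
    rw [e2, e1, hsE, hsF, neg_neg, hb, hD.one, map_mul, map_mul]
  -- `σ^(-p) c ≡ c`
  have hσs : σ.symm (x : L) = (x : L) - 1 := by
    rw [RingEquiv.symm_apply_eq, map_sub, map_one, hD.sx]
    ring
  have hσi : ∀ j : ℕ, (σ.symm^[j]) (x : L) = (x : L) - (j : L) := by
    intro j
    induction j with
    | zero => simp
    | succ j ih =>
      rw [Function.iterate_succ_apply', ih, map_sub, hσs, map_natCast]
      push_cast
      ring
  have hitadd : ∀ (j : ℕ) (c d : L), (σ.symm^[j]) (c + d) = (σ.symm^[j]) c + (σ.symm^[j]) d := by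
    intro j
    induction j with
    | zero => intro c d; rfl
    | succ j ih =>
      intro c d
      rw [Function.iterate_succ_apply', ih, map_add, ← Function.iterate_succ_apply' σ.symm,
        ← Function.iterate_succ_apply' σ.symm]
  have hitmul : ∀ (j : ℕ) (c d : L), (σ.symm^[j]) (c * d) = (σ.symm^[j]) c * (σ.symm^[j]) d := by
    intro j
    induction j with
    | zero => intro c d; rfl
    | succ j ih =>
      intro c d
      rw [Function.iterate_succ_apply', ih, map_mul, ← Function.iterate_succ_apply' σ.symm,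
        ← Function.iterate_succ_apply' σ.symm]
  have hitone : ∀ j : ℕ, (σ.symm^[j]) (1 : L) = 1 := by
    intro j
    induction j with
    | zero => rfl
    | succ j ih => rw [Function.iterate_succ_apply', ih, map_one]
  have hitzero : ∀ j : ℕ, (σ.symm^[j]) (0 : L) = 0 := by
    intro j
    induction j with
    | zero => rfl
    | succ j ih => rw [Function.iterate_succ_apply', ih, map_zero]
  have hσc : ∀ c : L, (σ.symm^[p]) c - c ∈ I := by
    let N : AddSubgroup L :=
      { carrier := {c | (σ.symm^[p]) c - c ∈ I}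
        zero_mem' := by
          change (σ.symm^[p]) (0 : L) - 0 ∈ I
          rw [hitzero, sub_zero]
          exact I.zero_mem
        add_mem' := by
          intro c d hc hd
          change (σ.symm^[p]) (c + d) - (c + d) ∈ I
          rw [hitadd]
          have := I.add_mem hc hd
          have e : (σ.symm^[p]) c + (σ.symm^[p]) d - (c + d) =
            ((σ.symm^[p]) c - c) + ((σ.symm^[p]) d - d) := by ring
          rw [e]
          exact this
        neg_mem' := by
          intro c hc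
          change (σ.symm^[p]) (-c) - (-c) ∈ I
          have h0 := hitadd p c (-c)
          rw [add_neg_cancel, hitzero] at h0
          have e : (σ.symm^[p]) (-c) - (-c) = -((σ.symm^[p]) c - c) := by
            linear_combination -h0
          rw [e]
          exact I.neg_mem hc }
    intro c
    refine hD.gn N ?_ ?_ c
    · change (σ.symm^[p]) (1 : L) - 1 ∈ I
      rw [hitone, sub_self]
      exact I.zero_mem
    · intro d hd
      change (σ.symm^[p]) ((x : L) * d) - (x : L) * d ∈ I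
      rw [hitmul, hσi]
      have e : ((x : L) - (p : L)) * (σ.symm^[p]) d - (x : L) * d =
        (x : L) * ((σ.symm^[p]) d - d) - (σ.symm^[p]) d * (p : L) := by ring
      rw [e]
      exact I.sub_mem (I.mul_mem_left _ hd) (I.mul_mem_left _ hpI)
  have hπE : ∀ c d : L, c - d ∈ I → π (E c) = π (E d) := by
    intro c d h
    rw [← hsE, ← hsE]
    congr 1
    exact Ideal.Quotient.eq.2 h
  have hπF : ∀ c d : L, c - d ∈ I → π (F1 a b E c) = π (F1 a b E d) := by
    intro c d h
    have h1 := hsF (-c)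
    have h2 := hsF (-d)
    rw [neg_neg] at h1 h2
    rw [← h1, ← h2]
    congr 1
    refine Ideal.Quotient.eq.2 ?_
    have e : -c - -d = -(c - d) := by ring
    rw [e]
    exact I.neg_mem h
  have hW1 : s.Weyl 1 := by
    constructor
    · intro y
      obtain ⟨c, rfl⟩ := hsurj y
      have e1 : (-((((1 : (L ⧸ I)ˣ)⁻¹ : (L ⧸ I)ˣ) : L ⧸ I) *
          (((1 : (L ⧸ I)ˣ)⁻¹ : (L ⧸ I)ˣ) : L ⧸ I) * Ideal.Quotient.mk I c)) =
          Ideal.Quotient.mk I (-c) := by simp
      rw [e1, hom, hsE, hsF, neg_neg, ← map_mul, ← map_inv, ← map_mul]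
      rfl
    · intro y
      obtain ⟨c, rfl⟩ := hsurj y
      have e1 : (-((((1 : (L ⧸ I)ˣ)) : L ⧸ I) * (((1 : (L ⧸ I)ˣ)) : L ⧸ I) *
          Ideal.Quotient.mk I c)) = Ideal.Quotient.mk I (-c) := by simp
      rw [e1, hom, hsE, hsF, ← map_mul, ← map_inv, ← map_mul, v2]
      exact hπE _ _ (hσc (-c))
  obtain ⟨y, hy⟩ : ∃ y : (L ⧸ I)ˣ, y = Units.map (Ideal.Quotient.mk I).toMonoidHom x := ⟨_, rfl⟩
  rw [← hy] at hF
  have hyv : (y : L ⧸ I) = Ideal.Quotient.mk I (x : L) := by rw [hy]; rfl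
  have hyi : ((y⁻¹ : (L ⧸ I)ˣ) : L ⧸ I) = Ideal.Quotient.mk I ((x⁻¹ : Lˣ) : L) := by rw [hy]; rfl
  have hyN : y ^ (q ^ p) = y := by
    apply Units.ext
    rw [Units.val_pow_eq_pow_val, hyv, ← map_pow]
    exact Ideal.Quotient.eq.2 hxI
  have hxinv : (((x⁻¹ ^ (q ^ p) : Lˣ) : L)) - ((x⁻¹ : Lˣ) : L) ∈ I := by
    rw [← Ideal.Quotient.eq, Units.val_pow_eq_pow_val, map_pow, ← hyi,
      ← Units.val_pow_eq_pow_val, inv_pow, hyN]
  have hT : s.IsTor y (π t)⁻¹ := by
    constructor
    · intro z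
      obtain ⟨c, rfl⟩ := hsurj z
      rw [hyv, ← map_mul, hsE, hsE, ← map_inv, ← map_inv, inv_inv, ← map_mul, ← map_mul, hD.tE]
    · intro z
      obtain ⟨c, rfl⟩ := hsurj z
      rw [hyi, ← map_mul, hsF, hsF, ← map_inv, ← map_inv, inv_inv, ← map_mul, ← map_mul, v1]
      apply hπF
      have e : (((x⁻¹ ^ (q ^ p) : Lˣ) : L)) * -c - -(((x⁻¹ : Lˣ) : L) * c) =
        -c * ((((x⁻¹ ^ (q ^ p) : Lˣ) : L)) - ((x⁻¹ : Lˣ) : L)) := by ring
      rw [e]
      exact I.mul_mem_left _ hxinv
  have hWx : s.Weyl y := by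
    have := s.weyl_tor hT hW1
    rwa [mul_one] at this
  have hfin : Finite s.gp := hF (G ⧸ Z) s hW1 hWx
  -- the image of `H`
  obtain ⟨ψ, hψ⟩ : ∃ ψ : H →* G ⧸ Z, ψ = π.comp H.subtype := ⟨_, rfl⟩
  have hker : ψ.ker = Subgroup.center H := by
    ext h
    rw [MonoidHom.mem_ker, hψ]
    change π (h : G) = 1 ↔ _
    rw [hπ1, hZ]
    constructor
    · rintro ⟨z, hz, hzh⟩
      have : z = h := Subtype.ext hzh
      rw [← this]
      exact hz
    · intro hh
      exact ⟨h, hh, rfl⟩
  have hle : H ≤ s.gp.comap π := by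
    rw [hH]
    refine (Subgroup.closure_le _).2 ?_
    rintro g (⟨c, rfl⟩ | ⟨c, rfl⟩)
    · rw [SetLike.mem_coe, Subgroup.mem_comap, ← hsE]
      exact s.E_mem _
    · rw [SetLike.mem_coe, Subgroup.mem_comap]
      have := hsF (-c)
      rw [neg_neg] at this
      rw [← this]
      exact s.F_mem _
  have hrange : ψ.range ≤ s.gp := by
    rintro _ ⟨h, rfl⟩
    rw [hψ]
    exact hle h.2
  have hfr : Finite ψ.range :=
    Finite.of_injective (Subgroup.inclusion hrange) (Subgroup.inclusion_injective hrange)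
  have hfk : Finite (H ⧸ ψ.ker) :=
    Finite.of_equiv _ (QuotientGroup.quotientKerEquivRange ψ).symm.toEquiv
  rw [hker] at hfk
  exact hfk

end Pool.Agent.Helper40.AX
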